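import Pool.Agent.H92P.Up
import Pool.Agent.H92.TowerD

/-!
# Statements of the project HB (rank zero and the upper bound for Sha propagate)
-/

set_option autoImplicit false
set_option linter.all false

open NumberField IsDedekindDomain WeierstrassCurve
open scoped Classical

namespace Pool.Agent.H92.HB

open Pool.Agent.TH115.GD (act ak rs Pt)
open Pool.Agent.H92 (clo)

/-! ### 1. Algebra: the Fitting ideal of the dual of a finite module -/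

section fit

variable {𝓕 A : Type} [CommGroup 𝓕] [AddCommGroup A] [DistribMulAction (𝓕 →* ℂˣ) A]

/-- the elements fixed by the `g` in the dual group which are trivial on `H` -/
def fixD (A : Type) [AddCommGroup A] [DistribMulAction (𝓕 →* ℂˣ) A] (H : Subgroup 𝓕) :
    AddSubgroup A where
  carrier := {a | ∀ g : 𝓕 →* ℂˣ, (∀ x ∈ H, g x = 1) → g • a = a}
  zero_mem' := fun g _ => smul_zero g
  add_mem' := fun {a b} ha hb g hg => by rw [smul_add, ha g hg, hb g hg]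
  neg_mem' := fun {a} ha g hg => by rw [smul_neg, ha g hg]

end fit

/-- the value of the element `θ` of the group ring of the dual group at `x` -/
noncomputable def ev {𝓕 : Type} [CommGroup 𝓕] (θ : (𝓕 →* ℂˣ) → ℤ) (x : 𝓕) : ℂ :=
  ∑ᶠ g : 𝓕 →* ℂˣ, (θ g : ℂ) * ((g x : ℂˣ) : ℂ)

/-- FIT -/
def S_FIT : Prop :=
  ∀ (p : ℕ), p.Prime → ∀ (𝓕 : Type) [CommGroup 𝓕] [Finite 𝓕] (A : Type) [AddCommGroup A] [Finite A]
    [DistribMulAction (𝓕 →* ℂˣ) A], (∃ k, ∀ x : 𝓕, x ^ p ^ k = 1) →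
    (∃ k, ∀ a : A, (p ^ k : ℕ) • a = 0) →
    ∃ θ : (𝓕 →* ℂˣ) → ℤ, ev θ 1 = (Nat.card (fixD A (⊥ : Subgroup 𝓕)) : ℂ) ∧
      ∀ H : Subgroup 𝓕, ∃ m : ℤ, (m : ℂ) = ∏ᶠ x : H, ev θ (x : 𝓕) ∧
        (Nat.card (fixD A H) : ℤ) ∣ m

/-- PFIN -/
def S_PFIN : Prop :=
  ∀ (p : ℕ), p.Prime → ∀ (G : Type) [Group G] [Finite G] (A : Type) [AddCommGroup A]
    [DistribMulAction G A], IsPGroup p G → (∃ k, ∀ a : A, (p ^ k : ℕ) • a = 0) →
    {a : A | ∀ g : G, g • a = a}.Finite → Finite A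

/-- VAL -/
def S_VAL : Prop :=
  ∀ (p : ℕ), p.Prime → ∀ (w v : ℕ), w ≤ v → ∀ (I : Type) [Finite I] (Φ : I → ℂ),
    (∀ i, ∃ y : integralClosure ℤ ℂ, Φ i = (p : ℂ) ^ w + (p : ℂ) ^ (v + 1) * y) →
    ∀ m : ℤ, (m : ℂ) = ∏ᶠ i, Φ i → ∀ c : ℕ, (∃ k, c ∣ p ^ k) → (c : ℤ) ∣ m →
    c ∣ p ^ (w * Nat.card I)

/-! ### 2. Cohomology -/

/-- A system of local conditions for the cocycles of the subgroups of `Γ` with values in `T`. -/
structure LocSys (Γ T : Type) [Group Γ] [AddCommGroup T] [DistribMulAction Γ T] where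
  Z : (U : Subgroup Γ) → AddSubgroup (U → T)
  coc : ∀ U, ∀ f ∈ Z U, ∀ σ τ : U, f (σ * τ) = f σ + (σ : Γ) • f τ
  cob : ∀ (U : Subgroup Γ) (t : T), (fun σ : U => (σ : Γ) • t - t) ∈ Z U
  res : ∀ (U U' : Subgroup Γ) (h : U ≤ U'), ∀ f ∈ Z U', (fun σ : U => f ⟨σ, h σ.2⟩) ∈ Z U
  conj : ∀ (U : Subgroup Γ), U.Normal → ∀ (τ : Γ), ∀ f ∈ Z U, ∀ f' : U → T,
    (∀ σ σ' : U, (σ : Γ) * τ = τ * σ' → f' σ = τ • f σ') → f' ∈ Z U

section sys
variable {Γ T : Type} [Group Γ] [AddCommGroup T] [DistribMulAction Γ T]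

/-- the coboundaries -/
def LocSys.B (S : LocSys Γ T) (U : Subgroup Γ) : AddSubgroup (S.Z U) where
  carrier := {f | ∃ t : T, ∀ σ : U, f.1 σ = (σ : Γ) • t - t}
  zero_mem' := ⟨0, fun σ => by
    show (0 : T) = _
    rw [smul_zero, sub_zero]⟩
  add_mem' := by
    rintro f g ⟨s, hs⟩ ⟨t, ht⟩
    refine ⟨s + t, fun σ => ?_⟩
    show f.1 σ + g.1 σ = _
    rw [hs, ht, smul_add]
    abel
  neg_mem' := by
    rintro f ⟨s, hs⟩
    refine ⟨-s, fun σ => ?_⟩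
    show - f.1 σ = _
    rw [hs, smul_neg]
    abel

/-- the classes -/
abbrev LocSys.A (S : LocSys Γ T) (U : Subgroup Γ) : Type := (S.Z U) ⧸ (S.B U)

end sys

/-- ABS -/
def S_ABS : Prop :=
  ∀ (Γ T : Type) [Group Γ] [AddCommGroup T] [DistribMulAction Γ T] (S : LocSys Γ T)
    (U : Subgroup Γ), U.Normal → (∀ t : T, (∀ σ ∈ U, σ • t = t) → t = 0) →
    (∀ f : Γ → T, (∀ σ τ, f (σ * τ) = f σ + σ • f τ) → (fun σ : U => f σ) ∈ S.Z U →
      (fun σ : (⊤ : Subgroup Γ) => f σ) ∈ S.Z ⊤) →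
    ∃ ρ : Γ → (S.A U →+ S.A U), (∀ a, ρ 1 a = a) ∧ (∀ σ τ a, ρ (σ * τ) a = ρ σ (ρ τ a)) ∧
      (∀ σ ∈ U, ∀ a, ρ σ a = a) ∧
      (∀ U' : Subgroup Γ, U ≤ U' → ∃ φ : S.A U' →+ S.A U, Function.Injective φ ∧
        ∀ a, ∀ σ ∈ U', ρ σ (φ a) = φ a) ∧
      Nonempty (S.A ⊤ ≃ {a : S.A U // ∀ σ, ρ σ a = a})

/-- STG, to be proved from `S_FIT`, `S_PFIN`, `S_VAL`, `S_ABS` -/
def S_STG : Prop :=
  ∀ (p : ℕ), p.Prime → ∀ (M v : ℕ) (Γ T : Type) [Group Γ] [AddCommGroup T] [DistribMulAction Γ T]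
    (S : LocSys Γ T), (∀ t : T, (p ^ M : ℕ) • t = 0) →
    ∀ (𝓕 : Type) [CommGroup 𝓕] [Finite 𝓕], (∃ k, ∀ x : 𝓕, x ^ p ^ k = 1) →
    ∀ π : Γ →* (𝓕 →* ℂˣ), Function.Surjective π → (∀ t : T, (∀ σ ∈ π.ker, σ • t = t) → t = 0) →
    (∀ f : Γ → T, (∀ σ τ, f (σ * τ) = f σ + σ • f τ) → (fun σ : π.ker => f σ) ∈ S.Z π.ker →
      (fun σ : (⊤ : Subgroup Γ) => f σ) ∈ S.Z ⊤) →
    Finite (S.A ⊤) → Nat.card (S.A ⊤) ∣ p ^ v →
    ∃ θ : (𝓕 →* ℂˣ) → ℤ, ∀ H : Subgroup 𝓕,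
      (∀ x ∈ H, ∃ y : integralClosure ℤ ℂ, ev θ x = ev θ 1 + (p : ℂ) ^ (v + 1) * y) →
      ∀ UH : Subgroup Γ, (∀ σ, σ ∈ UH ↔ ∀ x ∈ H, π σ x = 1) →
        Finite (S.A UH) ∧ Nat.card (S.A UH) ∣ p ^ (v * Nat.card H)

/-! ### 3. Ramsey -/

/-- RAM -/
def S_RAM : Prop :=
  ∀ (p : ℕ), p.Prime → ∀ e v d : ℕ, ∃ L : ℕ → ℕ, ∀ (X : Type) [CommGroup X] [Finite X],
    (∀ x : X, x ^ p ^ e = 1) → ∀ (θ : (X →* ℂˣ) → ℤ) (τ : Fin d → X →* X) (g : ℕ → X),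
    ∃ B : ℕ → Finset ℕ, (∀ k, (B k).Nonempty ∧ B k ⊆ Finset.Ico (L k) (L (k + 1))) ∧
    ∀ x ∈ clo τ g B, ∃ y : integralClosure ℤ ℂ, ev θ x = ev θ 1 + (p : ℂ) ^ (v + 1) * y

/-- the group generated by the first `n` blocks -/
def cloN {X : Type} [CommGroup X] {d : ℕ} (τ : Fin d → X →* X) (g : ℕ → X) (B : ℕ → Finset ℕ)
    (n : ℕ) : Subgroup X :=
  Subgroup.closure {y | ∃ i k, k < n ∧ y = τ i (∏ j ∈ B k, g j)}

/-- KON -/
def S_KON : Prop :=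
  ∀ (X : Type) [CommGroup X] (d : ℕ) (τ : Fin d → X →* X) (L : ℕ → ℕ) (g : ℕ → X)
    (P : ℕ → Subgroup X → Prop), (∀ n H H', H ≤ H' → P n H' → P n H) →
    (∀ n n' H, n ≤ n' → P n' H → P n H) →
    (∀ n, ∃ B : ℕ → Finset ℕ, (∀ k, (B k).Nonempty ∧ B k ⊆ Finset.Ico (L k) (L (k + 1))) ∧
      P n (cloN τ g B n)) →
    ∃ B : ℕ → Finset ℕ, (∀ k, (B k).Nonempty ∧ B k ⊆ Finset.Ico (L k) (L (k + 1))) ∧
      ∀ n, P n (cloN τ g B n)

/-- ALGR, to be proved from `S_RAM` and `S_KON` -/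
def S_ALGR : Prop :=
  ∀ (p : ℕ), p.Prime → ∀ e v d : ℕ, ∃ L : ℕ → ℕ, ∀ (X : Type) [CommGroup X],
    (∀ x : X, x ^ p ^ e = 1) → ∀ P : ℕ → Subgroup X → Prop,
    (∀ n H H', H ≤ H' → P n H' → P n H) → (∀ n n' H, n ≤ n' → P n' H → P n H) →
    (∀ (M : ℕ) (𝓕 : Subgroup X), Finite 𝓕 → ∃ θ : (𝓕 →* ℂˣ) → ℤ, ∀ H : Subgroup 𝓕,
      (∀ x ∈ H, ∃ y : integralClosure ℤ ℂ, ev θ x = ev θ 1 + (p : ℂ) ^ (v + 1) * y) →
      P M (H.map 𝓕.subtype)) →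
    ∀ (τ : Fin d → X →* X), (∃ i0, ∀ x, τ i0 x = x) → (∀ i j, ∃ k, ∀ x, τ i (τ j x) = τ k x) →
    ∀ g : ℕ → X, ∃ B : ℕ → Finset ℕ,
      (∀ k, (B k).Nonempty ∧ B k ⊆ Finset.Ico (L k) (L (k + 1))) ∧
      ∀ (M : ℕ) (H : Subgroup X), Finite H → H ≤ clo τ g B → P M H

/-! ### 4. Elliptic curves -/

section ell
variable {k : Type} [Field k] [NumberField k]

/-- the points of `E` over the algebraic closure of `k` which are killed by `q` -/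
noncomputable def Tor (V : WeierstrassCurve k) (q : ℕ) :
    AddSubgroup (Pt V (AlgebraicClosure k)) where
  carrier := {P | q • P = 0}
  zero_mem' := smul_zero q
  add_mem' := fun {P Q} hP hQ => by
    show q • (P + Q) = 0
    rw [smul_add, show q • P = 0 from hP, show q • Q = 0 from hQ, add_zero]
  neg_mem' := fun {P} hP => by
    show q • (-P) = 0
    rw [smul_neg, show q • P = 0 from hP, neg_zero]

noncomputable instance torAct (V : WeierstrassCurve k) (q : ℕ) :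
    DistribMulAction (AlgebraicClosure k ≃ₐ[k] AlgebraicClosure k) (Tor V q) where
  smul σ P := ⟨act V (ak σ) P.1, by
    show q • act V (ak σ) P.1 = 0
    rw [← map_nsmul, show q • P.1 = 0 from P.2, map_zero]⟩
  one_smul P := Subtype.ext (Pool.Agent.Y809.BS.act_one V P.1)
  mul_smul σ τ P := Subtype.ext (by
    show act V (ak (σ * τ)) P.1 = act V (ak σ) (act V (ak τ) P.1)
    rw [Pool.Agent.TH115.GD.act_act]
    rfl)
  smul_zero σ := Subtype.ext (map_zero (act V (ak σ)))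
  smul_add σ P Q := Subtype.ext (map_add (act V (ak σ)) P.1 Q.1)

theorem tor_smul (V : WeierstrassCurve k) (q : ℕ)
    (σ : AlgebraicClosure k ≃ₐ[k] AlgebraicClosure k) (P : Tor V q) :
    ((σ • P : Tor V q) : Pt V (AlgebraicClosure k)) = act V (ak σ) P.1 := rfl

/-- continuous cocycles of `U`, trivial over all the completions of `k` -/
structure IsSel (V : WeierstrassCurve k) (q : ℕ)
    (U : Subgroup (AlgebraicClosure k ≃ₐ[k] AlgebraicClosure k)) (f : U → Tor V q) : Prop where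
  lc : IsLocallyConstant f
  coc : ∀ σ τ : U, f (σ * τ) = f σ + (σ : AlgebraicClosure k ≃ₐ[k] AlgebraicClosure k) • f τ
  loc : ∀ (v : HeightOneSpectrum (𝓞 k))
    (ι : AlgebraicClosure k →ₐ[k] AlgebraicClosure (v.adicCompletion k)),
    ∃ P : Pt V (AlgebraicClosure (v.adicCompletion k)),
      ∀ (τ : AlgebraicClosure (v.adicCompletion k) ≃ₐ[v.adicCompletion k]
          AlgebraicClosure (v.adicCompletion k)) (σ : U),
        (∀ x, τ (ι x) = ι (σ.1 x)) → act V ι (f σ).1 = act V (rs k τ) P - P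

/-- `S` is the system of these cocycles. -/
def IsSys (V : WeierstrassCurve k) (q : ℕ)
    (S : LocSys (AlgebraicClosure k ≃ₐ[k] AlgebraicClosure k) (Tor V q)) : Prop :=
  ∀ U f, f ∈ S.Z U ↔ IsSel V q U f

end ell

/-- SYS -/
def S_SYS : Prop :=
  ∀ (k : Type) [Field k] [NumberField k] (V : WeierstrassCurve k) (q : ℕ), ∃ S, IsSys V q S

section fld
variable {k : Type} [Field k] [NumberField k]

/-- the automorphisms which fix the elements of `j(F)` -/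
def fixf {F : Type} [Field F] [Algebra k F] (j : F →ₐ[k] AlgebraicClosure k) :
    Subgroup (AlgebraicClosure k ≃ₐ[k] AlgebraicClosure k) where
  carrier := {σ | ∀ x : F, σ (j x) = j x}
  one_mem' := fun x => rfl
  mul_mem' := fun {σ τ} hσ hτ x => by
    show σ (τ (j x)) = j x
    rw [hτ x, hσ x]
  inv_mem' := fun {σ} hσ x => by
    have h : σ (j x) = j x := hσ x
    show σ.symm (j x) = j x
    rw [AlgEquiv.symm_apply_eq, h]

end fld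

open Pool.Agent.H92P (cu pts)

/-- GLUE -/
def S_GLUE : Prop :=
  ∀ (k L : Type) [Field k] [NumberField k] [Field L] [NumberField L] [Algebra k L] [IsGalois k L]
    (p n : ℕ), p.Prime → Module.finrank k L = p ^ n → ∀ a b : 𝓞 k,
    (∀ v : HeightOneSpectrum (𝓞 k), 2 * p * (4 * a ^ 3 + 27 * b ^ 2) ∈ v.asIdeal →
      Nonempty (L →ₐ[k] v.adicCompletion k)) →
    (∀ w : HeightOneSpectrum (𝓞 L), 2 * p * (4 * a ^ 3 + 27 * b ^ 2) ∉ (w.under (𝓞 k)).asIdeal →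
      ¬ p ∣ pts a b (w.under (𝓞 k)) + 1 ∨
      ∀ x : k, w.valuation L (algebraMap k L x) = (w.under (𝓞 k)).valuation k x) →
    ∀ (M : ℕ) (j : L →ₐ[k] AlgebraicClosure k)
      (f : (AlgebraicClosure k ≃ₐ[k] AlgebraicClosure k) → Tor (cu k a b) (p ^ M)),
      (∀ σ τ, f (σ * τ) = f σ + σ • f τ) → IsSel (cu k a b) (p ^ M) (fixf j) (fun σ => f σ) →
      IsSel (cu k a b) (p ^ M) ⊤ (fun σ => f σ)

/-- the quotient `A / q A` -/
abbrev Quo (q : ℕ) (A : Type) [AddCommGroup A] : Type := A ⧸ (nsmulAddMonoidHom (α := A) q).range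

/-- SHA -/
def S_SHA : Prop :=
  ∀ (k F : Type) [Field k] [NumberField k] [Field F] [NumberField F] [Algebra k F]
    (a b : 𝓞 k), 4 * a ^ 3 + 27 * b ^ 2 ≠ 0 → ∀ (q : ℕ), 0 < q → ∀ (j : F →ₐ[k] AlgebraicClosure k)
    (S : LocSys (AlgebraicClosure k ≃ₐ[k] AlgebraicClosure k) (Tor (cu k a b) q)),
    IsSys (cu k a b) q S → Finite (S.A (fixf j)) →
    (Finite {s : Pool.Agent.TH841.NF.D.Sha (cu F a b) // q • s = 0} ∧
      Nat.card {s : Pool.Agent.TH841.NF.D.Sha (cu F a b) // q • s = 0} ∣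
        Nat.card (S.A (fixf j))) ∧
    Finite (Quo q (cu F a b).toAffine.Point) ∧
    Nat.card (Quo q (cu F a b).toAffine.Point) ≤ Nat.card (S.A (fixf j))

/-- BASE -/
def S_BASE : Prop :=
  ∀ (k : Type) [Field k] [NumberField k] (a b : 𝓞 k), 4 * a ^ 3 + 27 * b ^ 2 ≠ 0 →
    ∀ (p : ℕ), p.Prime → p ≠ 2 → Finite (cu k a b).toAffine.Point →
    ¬ p ∣ Nat.card (cu k a b).toAffine.Point →
    Finite {s : Pool.Agent.TH841.NF.D.Sha (cu k a b) // ∃ i : ℕ, (p ^ i : ℕ) • s = 0} →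
    ∀ (M : ℕ) (S : LocSys (AlgebraicClosure k ≃ₐ[k] AlgebraicClosure k) (Tor (cu k a b) (p ^ M))),
    IsSys (cu k a b) (p ^ M) S → Finite (S.A ⊤) ∧ Nat.card (S.A ⊤) ∣
      Nat.card {s : Pool.Agent.TH841.NF.D.Sha (cu k a b) // ∃ i : ℕ, (p ^ i : ℕ) • s = 0}

/-- TORS -/
def S_TORS : Prop :=
  ∀ (k F : Type) [Field k] [NumberField k] [Field F] [NumberField F] [Algebra k F] [IsGalois k F]
    (p n : ℕ), p.Prime → Module.finrank k F = p ^ n → ∀ (a b : 𝓞 k), 4 * a ^ 3 + 27 * b ^ 2 ≠ 0 →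
    Finite (cu k a b).toAffine.Point → ¬ p ∣ Nat.card (cu k a b).toAffine.Point →
    (∀ P : (cu F a b).toAffine.Point, p • P = 0 → P = 0) ∧
    ∀ (M : ℕ) (j : F →ₐ[k] AlgebraicClosure k) (t : Tor (cu k a b) (p ^ M)),
      (∀ σ ∈ fixf j, σ • t = t) → t = 0

/-! ### 5. The class fields -/

section dic
variable {k 𝓛 X : Type} [Field k] [NumberField k] [Field 𝓛] [Algebra k 𝓛] [CommGroup X]

/-- the group of the automorphisms on which the characters in `H` are trivial -/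
def annG (κ : X →* ((𝓛 ≃ₐ[k] 𝓛) →* ℂˣ)) (H : Subgroup X) : Subgroup (𝓛 ≃ₐ[k] 𝓛) where
  carrier := {σ | ∀ x ∈ H, κ x σ = 1}
  one_mem' := fun x _ => map_one _
  mul_mem' := fun {σ τ} hσ hτ x hx => by rw [map_mul, hσ x hx, hτ x hx, one_mul]
  inv_mem' := fun {σ} hσ x hx => by rw [map_inv, hσ x hx, inv_one]

/-- the field of the characters in `H` -/
noncomputable def fld (κ : X →* ((𝓛 ≃ₐ[k] 𝓛) →* ℂˣ)) (H : Subgroup X) :
    IntermediateField k 𝓛 := IntermediateField.fixedField (annG κ H)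

end dic

/-- DIC -/
def S_DIC : Prop :=
  ∀ (k 𝓛 X : Type) [Field k] [NumberField k] [Field 𝓛] [Algebra k 𝓛] [IsGalois k 𝓛] [CommGroup X]
    (κ : X →* ((𝓛 ≃ₐ[k] 𝓛) →* ℂˣ)),
    (∀ H : Subgroup X, Finite H → Module.finrank k (fld κ H) = Nat.card H) →
    ∀ 𝓕 : Subgroup X, Finite 𝓕 → IsGalois k (fld κ 𝓕) ∧ FiniteDimensional k (fld κ 𝓕) ∧
    ∀ j : 𝓛 →ₐ[k] AlgebraicClosure k,
    ∃ π : (AlgebraicClosure k ≃ₐ[k] AlgebraicClosure k) →* (𝓕 →* ℂˣ), Function.Surjective π ∧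
      ∀ H : Subgroup X, H ≤ 𝓕 → ∀ σ : AlgebraicClosure k ≃ₐ[k] AlgebraicClosure k,
        (∀ x : fld κ H, σ (j x) = j x) ↔ ∀ x : 𝓕, (x : X) ∈ H → π σ x = 1

/-- END -/
def S_END : Prop :=
  ∀ (p : ℕ), p.Prime → ∀ (C : ℕ), 0 < C →
    (∀ (A : Type) [AddCommGroup A], AddGroup.FG A → (∀ a : A, p • a = 0 → a = 0) →
      (∀ M : ℕ, Finite (Quo (p ^ M) A) ∧ Nat.card (Quo (p ^ M) A) ≤ C) →
      Finite A ∧ ¬ p ∣ Nat.card A) ∧
    (∀ (A : Type) [AddCommGroup A],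
      (∀ M : ℕ, Finite {s : A // (p ^ M : ℕ) • s = 0} ∧
        Nat.card {s : A // (p ^ M : ℕ) • s = 0} ∣ C) →
      Finite {s : A // ∃ i : ℕ, (p ^ i : ℕ) • s = 0} ∧
        Nat.card {s : A // ∃ i : ℕ, (p ^ i : ℕ) • s = 0} ∣ C) ∧
    ∀ (A : Type) [AddCommGroup A], (∀ (M M' : ℕ), M ≤ M' →
      (Finite {s : A // (p ^ M' : ℕ) • s = 0} ∧ Nat.card {s : A // (p ^ M' : ℕ) • s = 0} ∣ C) →
      (Finite {s : A // (p ^ M : ℕ) • s = 0} ∧ Nat.card {s : A // (p ^ M : ℕ) • s = 0} ∣ C)) ∧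
      (∀ (M M' : ℕ), M ≤ M' →
      (Finite (Quo (p ^ M') A) ∧ Nat.card (Quo (p ^ M') A) ≤ C) →
      (Finite (Quo (p ^ M) A) ∧ Nat.card (Quo (p ^ M) A) ≤ C))

end Pool.Agent.H92.HB
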