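import Pool.Agent.H92.HB.Stm

/-!
# Statements of the project HB, second part: the pieces of FIT, and the local lemma for GLUE
-/

set_option autoImplicit false
set_option linter.all false

open scoped Classical

namespace Pool.Agent.H92.HB

/-- REL: the dual group of `A` is generated over `ℤ[G]` by `n` elements `y i`, which satisfy `n` relations; the
determinant of the relations has the augmentation `#A^G`. (Proof: `A^G` is a sum of cyclic groups of orders `p^c_i`,
`i < n`, so it has an embedding in `(ℚ/ℤ)^n` with coordinates `y i` killed by `p^c_i`; extend the `y i` to `A` (`ℚ/ℤ` is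
divisible). The subgroup of the common zeros of the translates of the `y i` is stable and has no nonzero element fixed by
the `p`-group `G`, so it is zero, (sep). By duality the translates of the `y i` generate the dual of `A`, and the characters
of `A` that are trivial on `A^G` are the sums of the `ψ(g a) - ψ(a)`: so `p^c_i y i = ∑_j (β_ij y j)` with `β_ij` of
augmentation zero; `M = diag(p^c_i) - β`.) -/
def S_REL : Prop :=
  ∀ (p : ℕ), p.Prime → ∀ (G : Type) [CommGroup G] [Fintype G] (A : Type) [AddCommGroup A] [Finite A]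
    [DistribMulAction G A], IsPGroup p G → (∃ k, ∀ a : A, (p ^ k : ℕ) • a = 0) →
    ∃ (n : ℕ) (y : Fin n → (A →+ AddCircle (1 : ℚ)))
      (M : Matrix (Fin n) (Fin n) (MonoidAlgebra ℤ G)),
      (∀ a, (∀ i, ∀ g : G, y i (g • a) = 0) → a = 0) ∧
      (∀ i a, ∑ j, ∑ g : G, (M i j).coeff g • y j (g • a) = 0) ∧
      ∑ g : G, (M.det).coeff g = (Nat.card {a : A // ∀ g : G, g • a = a} : ℤ)

/-- CNT: (`A` embeds in the dual group of `ℤ[G]^n / (rows of M)`, which has `|N(det M)|` elements if this is not `0`) -/
def S_CNT : Prop :=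
  ∀ (G : Type) [CommGroup G] [Fintype G] (A : Type) [AddCommGroup A] [Finite A]
    [DistribMulAction G A] (n : ℕ) (y : Fin n → (A →+ AddCircle (1 : ℚ)))
      (M : Matrix (Fin n) (Fin n) (MonoidAlgebra ℤ G)),
      (∀ a, (∀ i, ∀ g : G, y i (g • a) = 0) → a = 0) →
      (∀ i a, ∑ j, ∑ g : G, (M i j).coeff g • y j (g • a) = 0) →
      (Nat.card A : ℤ) ∣ Algebra.norm ℤ M.det

/-- NRM: the norm of the group ring of a finite commutative group -/
def S_NRM : Prop :=
  ∀ (G : Type) [CommGroup G] [Fintype G] (θ : MonoidAlgebra ℤ G),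
    ((Algebra.norm ℤ θ : ℤ) : ℂ) = ∏ᶠ χ : G →* ℂˣ, ∑ g : G, (θ.coeff g : ℂ) * ((χ g : ℂˣ) : ℂ)

end Pool.Agent.H92.HB
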