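import Pool.Agent.H92.HB.Stm

/-!
# The restriction of the Tate-Shafarevich group
-/

set_option autoImplicit false
set_option linter.all false

open NumberField IsDedekindDomain WeierstrassCurve
open scoped Classical

namespace Pool.Agent.H92.HB

open Pool.Agent.H92P (cu pts)

/-- LOW -/
def S_LOW : Prop :=
  ∀ (k F : Type) [Field k] [NumberField k] [Field F] [NumberField F] [Algebra k F] [IsGalois k F]
    (p n : ℕ), p.Prime → Module.finrank k F = p ^ n → ∀ (a b : 𝓞 k), 4 * a ^ 3 + 27 * b ^ 2 ≠ 0 →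
    Finite (cu F a b).toAffine.Point → ¬ p ∣ Nat.card (cu F a b).toAffine.Point →
    Finite {s : Pool.Agent.TH841.NF.D.Sha (cu F a b) // ∃ i : ℕ, (p ^ i : ℕ) • s = 0} →
    Nat.card {s : Pool.Agent.TH841.NF.D.Sha (cu k a b) // ∃ i : ℕ, (p ^ i : ℕ) • s = 0} ∣
      Nat.card {s : Pool.Agent.TH841.NF.D.Sha (cu F a b) // ∃ i : ℕ, (p ^ i : ℕ) • s = 0}

end Pool.Agent.H92.HB
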