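import Pool.Agent.H92.HB.Asm2
import Pool.Agent.H92.HB.Stm2
import Pool.Agent.H92.HB.Stm3
import Pool.Agent.H5.HB.Abs
import Pool.Agent.H6.HB.Algr
import Pool.Agent.H11.HB.Kon
import Pool.Agent.H11.HB.Nrm
import Pool.Agent.H12.HB.Tors
import Pool.Agent.H17.HB.Pfin
import Pool.Agent.H22.HB.Rel
import Pool.Agent.H23.HB.RAM
import Pool.Agent.H36.HB.BASE
import Pool.Agent.H36.HB.Idx
import Pool.Agent.H39.HB.Cnt
import Pool.Agent.H45.HB.END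
import Pool.Agent.H53.HB.FIT
import Pool.Agent.H52.HB.Sha
import Pool.Agent.H53.HB.STG
import Pool.Agent.H57.HB.Low
import Pool.Agent.H57.HB.Val
import Pool.Agent.H61.HB.Sys
import Pool.Agent.H85.HB.Dic
import Pool.Agent.H91.HB.Glue

/-!
# Assembly: all the modules
-/

set_option autoImplicit false
set_option linter.all false

open NumberField IsDedekindDomain WeierstrassCurve
open scoped Classical

namespace Pool.Agent.H92.HB

open Pool.Agent.H92 (clo)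
open Pool.Agent.H92P (cu pts)

theorem fit : S_FIT :=
  Pool.Agent.H53.HB.t_FIT Pool.Agent.H22.HB.rel Pool.Agent.H39.HB.t_CNT Pool.Agent.H11.HB.nrm

theorem stg : S_STG :=
  Pool.Agent.H53.HB.t_STG fit Pool.Agent.H17.HB.pfin Pool.Agent.H57.HB.t_VAL
    Pool.Agent.H5.HB.t_ABS

/-- the theorem of Ramsey type for one curve -/
theorem ramC {k : Type} [Field k]
    [NumberField k] {p : ℕ} (hp : p.Prime) (hp2 : p ≠ 2) {a b : 𝓞 k}
    (hΔ : 4 * a ^ 3 + 27 * b ^ 2 ≠ 0) (hfin : Finite (cu k a b).toAffine.Point)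
    (hcard : ¬ p ∣ Nat.card (cu k a b).toAffine.Point) {v : ℕ}
    (hS : Finite {s : Pool.Agent.TH841.NF.D.Sha (cu k a b) // ∃ i : ℕ, (p ^ i : ℕ) • s = 0})
    (hv : Nat.card {s : Pool.Agent.TH841.NF.D.Sha (cu k a b) // ∃ i : ℕ, (p ^ i : ℕ) • s = 0} =
      p ^ v) (e d : ℕ) :
    ∃ L : ℕ → ℕ, ∀ (X : Type) [CommGroup X] (hX : ∀ x : X, x ^ p ^ e = 1) (Y : Subgroup X)
      (𝓛 : Type) [Field 𝓛] [Algebra k 𝓛] (κ : Y →* ((𝓛 ≃ₐ[k] 𝓛) →* ℂˣ)), Twr κ a b p e →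
      ∀ (τ : Fin d → X →* X), (∃ i0, ∀ x, τ i0 x = x) → (∀ i j, ∃ k, ∀ x, τ i (τ j x) = τ k x) →
      RamG τ L fun ℋ => ∀ H : Subgroup Y, Finite H → H.map Y.subtype ≤ ℋ →
        ∀ M, QQ κ a b p v M H :=
  ram_one stg Pool.Agent.H61.HB.t_SYS Pool.Agent.H91.HB.t_GLUE Pool.Agent.H52.HB.t_SHA Pool.Agent.H36.HB.t_BASE
    Pool.Agent.H12.HB.t_TORS Pool.Agent.H85.HB.t_DIC Pool.Agent.H45.HB.t_END
    (Pool.Agent.H92.HB.t_ALGR Pool.Agent.H23.HB.t_RAM Pool.Agent.H11.HB.kon) hp hp2 hΔ hfin hcard hS hv e d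

theorem finC {k F : Type} [Field k] [NumberField k] [Field F]
    [NumberField F] [Algebra k F] [IsGalois k F] {a b : 𝓞 k} {p c n : ℕ} (hp : p.Prime)
    (hc : 0 < c) (hdeg : Module.finrank k F = p ^ n)
    (hΔ : 4 * a ^ 3 + 27 * b ^ 2 ≠ 0) (hfin : Finite (cu k a b).toAffine.Point)
    (hcard : ¬ p ∣ Nat.card (cu k a b).toAffine.Point)
    (h : ∀ M, QS F a b (p ^ M) c ∧ QF F a b (p ^ M) c) :
    Finite (cu F a b).toAffine.Point ∧ ¬ p ∣ Nat.card (cu F a b).toAffine.Point ∧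
    Finite {s : Pool.Agent.TH841.NF.D.Sha (cu F a b) // ∃ i : ℕ, (p ^ i : ℕ) • s = 0} ∧
    Nat.card {s : Pool.Agent.TH841.NF.D.Sha (cu k a b) // ∃ i : ℕ, (p ^ i : ℕ) • s = 0} ∣
      Nat.card {s : Pool.Agent.TH841.NF.D.Sha (cu F a b) // ∃ i : ℕ, (p ^ i : ℕ) • s = 0} ∧
    Nat.card {s : Pool.Agent.TH841.NF.D.Sha (cu F a b) // ∃ i : ℕ, (p ^ i : ℕ) • s = 0} ∣ c := by
  obtain ⟨h1, h2, h3, h4⟩ := fin_F Pool.Agent.H45.HB.t_END Pool.Agent.H12.HB.t_TORS hp hc hdeg hΔ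
    hfin hcard h
  exact ⟨h1, h2, h3, Pool.Agent.H57.HB.t_LOW k F p n hp hdeg a b hΔ h1 h2 h3, h4⟩

/-- a finite group of exponent a power of `p` -/
theorem card_sha {A : Type} [AddCommGroup A] {p : ℕ} (hp : p.Prime)
    (h : Finite {s : A // ∃ i : ℕ, (p ^ i : ℕ) • s = 0}) :
    ∃ v, Nat.card {s : A // ∃ i : ℕ, (p ^ i : ℕ) • s = 0} = p ^ v := by
  let S : AddSubgroup A :=
    { carrier := {s | ∃ i : ℕ, (p ^ i : ℕ) • s = 0}
      zero_mem' := ⟨0, smul_zero _⟩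
      add_mem' := by
        rintro s t ⟨i, hi⟩ ⟨j, hj⟩
        refine ⟨i + j, ?_⟩
        rw [smul_add, pow_add, mul_comm, mul_smul, hi, smul_zero, mul_comm, mul_smul, hj,
          smul_zero, add_zero]
      neg_mem' := by
        rintro s ⟨i, hi⟩
        exact ⟨i, by rw [smul_neg, hi, neg_zero]⟩ }
  have hf : Finite S := h
  have : Fact p.Prime := ⟨hp⟩
  have h1 : IsPGroup p (Multiplicative S) := by
    rintro ⟨s, i, hi⟩
    exact ⟨i, Subtype.ext hi⟩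
  obtain ⟨v, hv⟩ := IsPGroup.iff_card.1 h1
  exact ⟨v, hv⟩

end Pool.Agent.H92.HB
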