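import Pool.Agent.H92.HB.Stm

/-!
# Assembly: one curve
-/

set_option autoImplicit false
set_option linter.all false

open NumberField IsDedekindDomain WeierstrassCurve
open scoped Classical

namespace Pool.Agent.H92.HB

open Pool.Agent.TH115.GD (act ak rs Pt)
open Pool.Agent.H92 (clo)
open Pool.Agent.H92P (cu pts)

/-- the bound for `Ш(E/F)[q]` -/
def QS {k : Type} [Field k] [NumberField k] (F : Type) [Field F] [NumberField F] [Algebra k F]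
    (a b : 𝓞 k) (q c : ℕ) : Prop :=
  Finite {s : Pool.Agent.TH841.NF.D.Sha (cu F a b) // (q : ℕ) • s = 0} ∧
    Nat.card {s : Pool.Agent.TH841.NF.D.Sha (cu F a b) // (q : ℕ) • s = 0} ∣ c

/-- the bound for `E(F)/q` -/
def QF {k : Type} [Field k] [NumberField k] (F : Type) [Field F] [NumberField F] [Algebra k F]
    (a b : 𝓞 k) (q c : ℕ) : Prop :=
  Finite (Quo q (cu F a b).toAffine.Point) ∧ Nat.card (Quo q (cu F a b).toAffine.Point) ≤ c

/-- the property of the class field of `H` -/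
def QQ {k 𝓛 X : Type} [Field k] [NumberField k] [Field 𝓛] [Algebra k 𝓛] [CommGroup X]
    (κ : X →* ((𝓛 ≃ₐ[k] 𝓛) →* ℂˣ)) (a b : 𝓞 k) (p v M : ℕ) (H : Subgroup X) : Prop :=
  ∀ [NumberField (fld κ H)], QS (fld κ H) a b (p ^ M) (p ^ (v * Nat.card H)) ∧
    QF (fld κ H) a b (p ^ M) (p ^ (v * Nat.card H))

/-- the field of `H` for all the finite groups of characters -/
structure Twr {k 𝓛 X : Type} [Field k] [NumberField k] [Field 𝓛] [Algebra k 𝓛] [CommGroup X]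
    (κ : X →* ((𝓛 ≃ₐ[k] 𝓛) →* ℂˣ)) (a b : 𝓞 k) (p e : ℕ) : Prop where
  gal : IsGalois k 𝓛
  exp : ∀ x : X, x ^ p ^ e = 1
  deg : ∀ H : Subgroup X, Finite H → Module.finrank k (fld κ H) = Nat.card H
  split : ∀ H : Subgroup X, Finite H → ∀ v : HeightOneSpectrum (𝓞 k),
    2 * p * (4 * a ^ 3 + 27 * b ^ 2) ∈ v.asIdeal → Nonempty (fld κ H →ₐ[k] v.adicCompletion k)
  ram : ∀ H : Subgroup X, Finite H → ∀ [NumberField (fld κ H)],
    ∀ w : HeightOneSpectrum (𝓞 (fld κ H)),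
      2 * p * (4 * a ^ 3 + 27 * b ^ 2) ∉ (w.under (𝓞 k)).asIdeal →
      ¬ p ∣ pts a b (w.under (𝓞 k)) + 1 ∨
      ∀ x : k, w.valuation (fld κ H) (algebraMap k (fld κ H) x) = (w.under (𝓞 k)).valuation k x

theorem fin_F (hEND : S_END) (hTORS : S_TORS) {k F : Type} [Field k] [NumberField k] [Field F]
    [NumberField F] [Algebra k F] [IsGalois k F] {a b : 𝓞 k} {p c n : ℕ} (hp : p.Prime)
    (hc : 0 < c) (hdeg : Module.finrank k F = p ^ n)
    (hΔ : 4 * a ^ 3 + 27 * b ^ 2 ≠ 0) (hfin : Finite (cu k a b).toAffine.Point)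
    (hcard : ¬ p ∣ Nat.card (cu k a b).toAffine.Point)
    (h : ∀ M, QS F a b (p ^ M) c ∧ QF F a b (p ^ M) c) :
    Finite (cu F a b).toAffine.Point ∧ ¬ p ∣ Nat.card (cu F a b).toAffine.Point ∧
    Finite {s : Pool.Agent.TH841.NF.D.Sha (cu F a b) // ∃ i : ℕ, (p ^ i : ℕ) • s = 0} ∧
    Nat.card {s : Pool.Agent.TH841.NF.D.Sha (cu F a b) // ∃ i : ℕ, (p ^ i : ℕ) • s = 0} ∣ c := by
  obtain ⟨hT, -⟩ := hTORS k F p n hp hdeg a b hΔ hfin hcard
  obtain ⟨E1, E2, -⟩ := hEND p hp c hc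
  have hfg : AddGroup.FG (cu F a b).toAffine.Point := by
    refine Pool.Agent.H92P.mw_fg _ _ ?_
    have h0 : (algebraMap (𝓞 k) F) (4 * a ^ 3 + 27 * b ^ 2) ≠ 0 := by
      rw [Ne, FaithfulSMul.algebraMap_eq_zero_iff]
      exact hΔ
    rw [map_add, map_mul, map_mul, map_pow, map_pow, map_ofNat, map_ofNat] at h0
    exact h0
  obtain ⟨h1, h2⟩ := E1 _ hfg hT fun M => (h M).2
  obtain ⟨h3, h4⟩ := E2 (Pool.Agent.TH841.NF.D.Sha (cu F a b)) fun M => (h M).1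
  exact ⟨h1, h2, h3, h4⟩

theorem mono_F (hEND : S_END) {k F : Type} [Field k] [NumberField k] [Field F]
    [NumberField F] [Algebra k F] {a b : 𝓞 k} {p c : ℕ} (hp : p.Prime)
    (hc : 0 < c) {M M' : ℕ} (hM : M ≤ M') (h : QS F a b (p ^ M') c ∧ QF F a b (p ^ M') c) :
    QS F a b (p ^ M) c ∧ QF F a b (p ^ M) c := by
  obtain ⟨-, -, E3⟩ := hEND p hp c hc
  exact ⟨(E3 _).1 M M' hM h.1, (E3 _).2 M M' hM h.2⟩

theorem sha_F (hSHA : S_SHA) {k F : Type} [Field k] [NumberField k] [Field F]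
    [NumberField F] [Algebra k F] {a b : 𝓞 k} (hΔ : 4 * a ^ 3 + 27 * b ^ 2 ≠ 0) {q c : ℕ}
    (hq : 0 < q) (hc : 0 < c) (j : F →ₐ[k] AlgebraicClosure k)
    (S : LocSys (AlgebraicClosure k ≃ₐ[k] AlgebraicClosure k) (Tor (cu k a b) q))
    (hS : IsSys (cu k a b) q S) (h1 : Finite (S.A (fixf j))) (h2 : Nat.card (S.A (fixf j)) ∣ c) :
    QS F a b q c ∧ QF F a b q c := by
  obtain ⟨⟨h3, h4⟩, h5, h6⟩ := hSHA k F a b hΔ q hq j S hS h1
  exact ⟨⟨h3, h4.trans h2⟩, h5, h6.trans (Nat.le_of_dvd hc h2)⟩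

theorem card_pow {X : Type} [CommGroup X] {p e : ℕ} (hp : p.Prime)
    (hexp : ∀ x : X, x ^ p ^ e = 1) (H : Subgroup X) (hH : Finite H) :
    ∃ n, Nat.card H = p ^ n := by
  have : Fact p.Prime := ⟨hp⟩
  have h : IsPGroup p H := fun x => ⟨e, Subtype.ext (hexp x)⟩
  exact IsPGroup.iff_card.1 h

section one

variable {k 𝓛 X : Type} [Field k] [NumberField k] [Field 𝓛] [Algebra k 𝓛] [CommGroup X]
  {κ : X →* ((𝓛 ≃ₐ[k] 𝓛) →* ℂˣ)} {a b : 𝓞 k} {p e v : ℕ}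

theorem key (hSTG : S_STG) (hSYS : S_SYS) (hGLUE : S_GLUE) (hSHA : S_SHA) (hBASE : S_BASE)
    (hTORS : S_TORS) (hDIC : S_DIC) (hp : p.Prime) (hp2 : p ≠ 2) (ht : Twr κ a b p e)
    (hΔ : 4 * a ^ 3 + 27 * b ^ 2 ≠ 0) (hfin : Finite (cu k a b).toAffine.Point)
    (hcard : ¬ p ∣ Nat.card (cu k a b).toAffine.Point)
    (hS : Finite {s : Pool.Agent.TH841.NF.D.Sha (cu k a b) // ∃ i : ℕ, (p ^ i : ℕ) • s = 0})
    (hv : Nat.card {s : Pool.Agent.TH841.NF.D.Sha (cu k a b) // ∃ i : ℕ, (p ^ i : ℕ) • s = 0} =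
      p ^ v)
    (M : ℕ) (𝓕 : Subgroup X) (h𝓕 : Finite 𝓕) :
    ∃ θ : (𝓕 →* ℂˣ) → ℤ, ∀ H : Subgroup X, H ≤ 𝓕 →
      (∀ x : 𝓕, (x : X) ∈ H →
        ∃ y : integralClosure ℤ ℂ, ev θ x = ev θ 1 + (p : ℂ) ^ (v + 1) * y) →
      QQ κ a b p v M H := by
  have hgal := ht.gal
  obtain ⟨hG, hfd, hj⟩ := hDIC k 𝓛 X κ ht.deg 𝓕 h𝓕
  have j₀ : 𝓛 →ₐ[k] AlgebraicClosure k := IsAlgClosed.lift
  obtain ⟨π, hπs, hπ⟩ := hj j₀
  have hnf : NumberField (fld κ 𝓕) := NumberField.of_module_finite k (fld κ 𝓕)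
  obtain ⟨n, hn⟩ := card_pow hp ht.exp 𝓕 h𝓕
  have hdeg : Module.finrank k (fld κ 𝓕) = p ^ n := by rw [ht.deg 𝓕 h𝓕, hn]
  obtain ⟨S, hSys⟩ := hSYS k (cu k a b) (p ^ M)
  let j : fld κ 𝓕 →ₐ[k] AlgebraicClosure k := j₀.comp (fld κ 𝓕).val
  have hker : π.ker = fixf j := by
    ext σ
    rw [MonoidHom.mem_ker]
    constructor
    · intro h x
      exact (hπ 𝓕 le_rfl σ).2 (fun x _ => by rw [h]; rfl) x
    · intro h
      ext x
      have := (hπ 𝓕 le_rfl σ).1 (fun x => h x) x x.2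
      rw [this]
      rfl
  obtain ⟨-, hT0⟩ := hTORS k (fld κ 𝓕) p n hp hdeg a b hΔ hfin hcard
  obtain ⟨hB1, hB2⟩ := hBASE k a b hΔ p hp hp2 hfin hcard hS M S hSys
  rw [hv] at hB2
  have hglue : ∀ U : Subgroup (AlgebraicClosure k ≃ₐ[k] AlgebraicClosure k), U = fixf j →
      ∀ f : (AlgebraicClosure k ≃ₐ[k] AlgebraicClosure k) → Tor (cu k a b) (p ^ M),
      (∀ σ τ, f (σ * τ) = f σ + σ • f τ) → (fun σ : U => f σ) ∈ S.Z U →
      (fun σ : (⊤ : Subgroup (AlgebraicClosure k ≃ₐ[k] AlgebraicClosure k)) => f σ) ∈ S.Z ⊤ := by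
    rintro U rfl f hf hfU
    exact (hSys _ _).2 (hGLUE k (fld κ 𝓕) p n hp hdeg a b (ht.split 𝓕 h𝓕) (ht.ram 𝓕 h𝓕) M j f hf
      ((hSys _ _).1 hfU))
  obtain ⟨θ, hθ⟩ := hSTG p hp M v (AlgebraicClosure k ≃ₐ[k] AlgebraicClosure k)
    (Tor (cu k a b) (p ^ M)) S (fun t => Subtype.ext t.2) 𝓕 ⟨e, fun x => Subtype.ext (ht.exp x)⟩ π
    hπs (fun t h => hT0 M j t fun σ hσ => h σ (by rw [hker]; exact hσ)) (hglue _ hker) hB1 hB2
  refine ⟨θ, fun H hH hc hnH => ?_⟩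
  have hHf : Finite H := Finite.of_injective _ (Subgroup.inclusion_injective hH)
  let jH : fld κ H →ₐ[k] AlgebraicClosure k := j₀.comp (fld κ H).val
  obtain ⟨h1, h2⟩ := hθ (H.subgroupOf 𝓕) (fun x hx => hc x (Subgroup.mem_subgroupOf.1 hx))
    (fixf jH) (fun σ => ⟨fun h x hx => (hπ H hH σ).1 (fun y => h y) x (Subgroup.mem_subgroupOf.1 hx),
      fun h y => (hπ H hH σ).2 (fun x hx => h x (Subgroup.mem_subgroupOf.2 hx)) y⟩)
  have hcH : Nat.card (H.subgroupOf 𝓕) = Nat.card H :=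
    Nat.card_congr (Subgroup.subgroupOfEquivOfLe hH).toEquiv
  rw [hcH] at h2
  exact sha_F hSHA hΔ (pow_pos hp.pos M) (pow_pos hp.pos _) jH S hSys h1 h2

theorem fin_of (hEND : S_END) (hTORS : S_TORS) (hp : p.Prime) (ht : Twr κ a b p e)
    (hΔ : 4 * a ^ 3 + 27 * b ^ 2 ≠ 0) (hfin : Finite (cu k a b).toAffine.Point)
    (hcard : ¬ p ∣ Nat.card (cu k a b).toAffine.Point) (H : Subgroup X) (hH : Finite H)
    [NumberField (fld κ H)] [IsGalois k (fld κ H)]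
    (h : ∀ M, QQ κ a b p v M H) :
    Finite (cu (fld κ H) a b).toAffine.Point ∧ ¬ p ∣ Nat.card (cu (fld κ H) a b).toAffine.Point ∧
    Finite {s : Pool.Agent.TH841.NF.D.Sha (cu (fld κ H) a b) // ∃ i : ℕ, (p ^ i : ℕ) • s = 0} ∧
    Nat.card {s : Pool.Agent.TH841.NF.D.Sha (cu (fld κ H) a b) // ∃ i : ℕ, (p ^ i : ℕ) • s = 0} ∣
      p ^ (v * Nat.card H) := by
  obtain ⟨n, hn⟩ := card_pow hp ht.exp H hH
  have hdeg : Module.finrank k (fld κ H) = p ^ n := by rw [ht.deg H hH, hn]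
  exact fin_F hEND hTORS hp (pow_pos hp.pos _) hdeg hΔ hfin hcard fun M => h M

end one

/-- the theorem of Ramsey type for one curve -/
theorem ram_one (hSTG : S_STG) (hSYS : S_SYS) (hGLUE : S_GLUE) (hSHA : S_SHA) (hBASE : S_BASE)
    (hTORS : S_TORS) (hDIC : S_DIC) (hEND : S_END) (hALGR : S_ALGR) {k : Type} [Field k]
    [NumberField k] {p : ℕ} (hp : p.Prime) (hp2 : p ≠ 2) {a b : 𝓞 k}
    (hΔ : 4 * a ^ 3 + 27 * b ^ 2 ≠ 0) (hfin : Finite (cu k a b).toAffine.Point)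
    (hcard : ¬ p ∣ Nat.card (cu k a b).toAffine.Point) {v : ℕ}
    (hS : Finite {s : Pool.Agent.TH841.NF.D.Sha (cu k a b) // ∃ i : ℕ, (p ^ i : ℕ) • s = 0})
    (hv : Nat.card {s : Pool.Agent.TH841.NF.D.Sha (cu k a b) // ∃ i : ℕ, (p ^ i : ℕ) • s = 0} =
      p ^ v) (e d : ℕ) :
    ∃ L : ℕ → ℕ, ∀ (X : Type) [CommGroup X] (hX : ∀ x : X, x ^ p ^ e = 1) (Y : Subgroup X)
      (𝓛 : Type) [Field 𝓛] [Algebra k 𝓛] (κ : Y →* ((𝓛 ≃ₐ[k] 𝓛) →* ℂˣ)), Twr κ a b p e →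
      ∀ (τ : Fin d → X →* X), (∃ i0, ∀ x, τ i0 x = x) → (∀ i j, ∃ k, ∀ x, τ i (τ j x) = τ k x) →
      ∀ g : ℕ → X, ∃ B : ℕ → Finset ℕ,
      (∀ k, (B k).Nonempty ∧ B k ⊆ Finset.Ico (L k) (L (k + 1))) ∧
      ∀ H : Subgroup Y, Finite H → H.map Y.subtype ≤ clo τ g B → ∀ M, QQ κ a b p v M H := by
  obtain ⟨L, hL⟩ := hALGR p hp e v d
  refine ⟨L, fun X _ hX Y 𝓛 _ _ κ ht τ hτ1 hτ2 g => ?_⟩
  obtain ⟨B, hB1, hB2⟩ := hL X hX (fun M H => ∀ H' : Subgroup Y, Finite H' →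
      H'.map Y.subtype ≤ H → QQ κ a b p v M H')
    (fun M H H' hH h K hK hK' => h K hK (hK'.trans hH))
    (fun M M' H hM h K hK hK' hnf => mono_F hEND hp (pow_pos hp.pos _) hM (h K hK hK'))
    (fun M 𝓕 h𝓕 => by
      have hYf : Finite (𝓕.subgroupOf Y) := by
        refine Finite.of_injective (fun x : 𝓕.subgroupOf Y => (⟨((x : Y) : X), x.2⟩ : 𝓕)) ?_
        intro x y hxy
        have h1 := congrArg Subtype.val hxy
        exact Subtype.ext (Subtype.ext h1)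
      obtain ⟨θ, hθ⟩ := key hSTG hSYS hGLUE hSHA hBASE hTORS hDIC hp hp2 ht hΔ hfin hcard hS hv M
        (𝓕.subgroupOf Y) hYf
      -- the restriction of the characters of `𝓕` to `𝓕 ∩ Y`
      let ι : 𝓕.subgroupOf Y →* 𝓕 :=
        { toFun := fun x => ⟨((x : Y) : X), x.2⟩, map_one' := rfl, map_mul' := fun x y => rfl }
      have hι : Function.Injective ι := by
        intro x y hxy
        have h1 := congrArg Subtype.val hxy
        exact Subtype.ext (Subtype.ext h1)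
      have hsur : Function.Surjective fun φ : 𝓕 →* ℂˣ => φ.comp ι := by
        intro ψ
        have hne : NeZero (Monoid.exponent 𝓕) := ⟨Monoid.exponent_ne_zero_of_finite⟩
        obtain ⟨φ, hφ⟩ := MonoidHom.domRestrict_surjective (G := 𝓕) ℂ ι.range
          (ψ.comp (MonoidHom.ofInjective hι).symm.toMonoidHom)
        refine ⟨φ, ?_⟩
        ext x
        have h1 := DFunLike.congr_fun hφ ⟨ι x, ⟨x, rfl⟩⟩
        have h2 : (MonoidHom.ofInjective hι).symm ⟨ι x, ⟨x, rfl⟩⟩ = x := by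
          rw [MulEquiv.symm_apply_eq]
          rfl
        have h3 : φ (ι x) = ψ ((MonoidHom.ofInjective hι).symm ⟨ι x, ⟨x, rfl⟩⟩) := h1
        rw [h2] at h3
        show ((φ (ι x) : ℂˣ) : ℂ) = ((ψ x : ℂˣ) : ℂ)
        rw [h3]
      let s : (𝓕.subgroupOf Y →* ℂˣ) → (𝓕 →* ℂˣ) := Function.surjInv hsur
      have hs : ∀ ψ, (s ψ).comp ι = ψ := Function.surjInv_eq hsur
      let θ' : (𝓕 →* ℂˣ) → ℤ := fun φ => if s (φ.comp ι) = φ then θ (φ.comp ι) else 0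
      have hev : ∀ x : 𝓕.subgroupOf Y, ev θ' (ι x) = ev θ x := by
        intro x
        have : Fintype (𝓕 →* ℂˣ) := Fintype.ofFinite _
        have : Fintype (𝓕.subgroupOf Y →* ℂˣ) := Fintype.ofFinite _
        unfold ev
        rw [finsum_eq_sum_of_fintype, finsum_eq_sum_of_fintype]
        symm
        refine Finset.sum_of_injOn s ?_ (fun _ _ => Finset.mem_coe.2 (Finset.mem_univ _)) ?_ ?_
        · intro ψ _ ψ' _ h1
          rw [← hs ψ, ← hs ψ', h1]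
        · intro φ _ hφ
          have h1 : θ' φ = 0 := by
            refine if_neg fun h2 => hφ ⟨φ.comp ι, Finset.mem_coe.2 (Finset.mem_univ _), h2⟩
          rw [h1]
          simp
        · intro ψ _
          have h1 : θ' (s ψ) = θ ψ := by
            show (if s ((s ψ).comp ι) = s ψ then θ ((s ψ).comp ι) else 0) = θ ψ
            rw [hs, if_pos rfl]
          have h2 : (s ψ) (ι x) = ψ x := DFunLike.congr_fun (hs ψ) x
          rw [h1, h2]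
      refine ⟨θ', fun H hH H' hH' hle => hθ H' ?_ ?_⟩
      · intro y hy
        have h1 : ((y : Y) : X) ∈ H.map 𝓕.subtype := hle ⟨y, hy, rfl⟩
        obtain ⟨z, -, hz⟩ := h1
        show ((y : Y) : X) ∈ 𝓕
        rw [← hz]
        exact z.2
      · intro x hx
        have h1 : (((x : Y) : X)) ∈ H.map 𝓕.subtype := hle ⟨x, hx, rfl⟩
        obtain ⟨z, hz1, hz⟩ := h1
        have hz2 : z = ι x := Subtype.ext hz
        obtain ⟨y, hy⟩ := hH z hz1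
        refine ⟨y, ?_⟩
        rw [hz2, hev] at hy
        rw [hy, ← hev 1, map_one]) τ hτ1 hτ2 g
  refine ⟨B, hB1, fun H hH hle M => hB2 M (H.map Y.subtype) ?_ hle H hH le_rfl⟩
  have h1 : (H : Set Y).Finite := hH
  exact (h1.image Y.subtype)

end Pool.Agent.H92.HB
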