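import Pool.Agent.H92.HB.Asm

/-!
# Assembly: several properties at once
-/

set_option autoImplicit false
set_option linter.all false

open NumberField IsDedekindDomain
open scoped Classical

namespace Pool.Agent.H92.HB

open Pool.Agent.H92 (clo)

/-- blocks in the windows `[L k, L (k + 1))` such that the group generated by their products has the property `R` -/
def RamG {X : Type} [CommGroup X] {d : ℕ} (τ : Fin d → X →* X) (L : ℕ → ℕ)
    (R : Subgroup X → Prop) : Prop :=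
  ∀ g : ℕ → X, ∃ B : ℕ → Finset ℕ, (∀ k, (B k).Nonempty ∧ B k ⊆ Finset.Ico (L k) (L (k + 1))) ∧
    R (clo τ g B)

theorem RamG.and {X : Type} [CommGroup X] {d : ℕ} {τ : Fin d → X →* X} {L L' : ℕ → ℕ}
    {R R' : Subgroup X → Prop} (hR : ∀ H H', H ≤ H' → R H' → R H) (h : RamG τ L R)
    (h' : RamG τ L' R') : RamG τ (fun k => L (L' k)) (fun H => R H ∧ R' H) := by
  intro g
  obtain ⟨B, hB1, hB2⟩ := h g
  obtain ⟨B', hB1', hB2'⟩ := h' fun k => ∏ j ∈ B k, g j
  have hLlt : ∀ k, L k < L (k + 1) := by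
    intro k
    obtain ⟨x, hx⟩ := (hB1 k).1
    have h5 := Finset.mem_Ico.1 ((hB1 k).2 hx)
    omega
  have hLm : StrictMono L := strictMono_nat_of_lt_succ hLlt
  have hdis : ∀ i j, i ≠ j → Disjoint (B i) (B j) := by
    have h1 : ∀ i j, i < j → Disjoint (B i) (B j) := by
      intro i j hij
      rw [Finset.disjoint_left]
      intro x hx hx'
      have h2 := Finset.mem_Ico.1 ((hB1 i).2 hx)
      have h3 := Finset.mem_Ico.1 ((hB1 j).2 hx')
      have h4 := hLm.monotone (by omega : i + 1 ≤ j)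
      omega
    intro i j hij
    rcases lt_or_gt_of_ne hij with h2 | h2
    · exact h1 i j h2
    · exact (h1 j i h2).symm
  have hprod : ∀ k, ∏ j ∈ (B' k).biUnion B, g j = ∏ i ∈ B' k, ∏ j ∈ B i, g j := fun k =>
    Finset.prod_biUnion fun i _ j _ hij => hdis i j hij
  have h1 : clo τ g (fun k => (B' k).biUnion B) = clo τ (fun k => ∏ j ∈ B k, g j) B' := by
    unfold clo
    simp only [hprod]
  refine ⟨fun k => (B' k).biUnion B, fun k => ⟨?_, ?_⟩, ?_, ?_⟩
  · obtain ⟨i, hi⟩ := (hB1' k).1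
    obtain ⟨j, hj⟩ := (hB1 i).1
    exact ⟨j, Finset.mem_biUnion.2 ⟨i, hi, hj⟩⟩
  · intro j hj
    obtain ⟨i, hi, hji⟩ := Finset.mem_biUnion.1 hj
    have h1 := Finset.mem_Ico.1 ((hB1' k).2 hi)
    have h2 := Finset.mem_Ico.1 ((hB1 i).2 hji)
    have h3 := hLm.monotone h1.1
    have h4 := hLm.monotone (by omega : i + 1 ≤ L' (k + 1))
    exact Finset.mem_Ico.2 ⟨h3.trans h2.1, lt_of_lt_of_le h2.2 h4⟩
  · refine hR _ _ ?_ hB2
    rw [h1]
    unfold clo
    rw [Subgroup.closure_le]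
    rintro _ ⟨i, k, rfl⟩
    beta_reduce
    rw [map_prod]
    exact Subgroup.prod_mem _ fun l _ => Subgroup.subset_closure ⟨i, l, rfl⟩
  · rw [h1]
    exact hB2'

theorem RamG.mono {X : Type} [CommGroup X] {d : ℕ} {τ : Fin d → X →* X} {L : ℕ → ℕ}
    {R R' : Subgroup X → Prop} (hR : ∀ H, R H → R' H) (h : RamG τ L R) : RamG τ L R' := by
  intro g
  obtain ⟨B, hB1, hB2⟩ := h g
  exact ⟨B, hB1, hR _ hB2⟩

theorem ramG_all (m : ℕ) (L : Fin m → ℕ → ℕ) : ∃ L' : ℕ → ℕ, ∀ (X : Type) [CommGroup X] (d : ℕ)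
    (τ : Fin d → X →* X) (R : Fin m → Subgroup X → Prop),
    (∀ i H H', H ≤ H' → R i H' → R i H) → (∀ i, RamG τ (L i) (R i)) →
    RamG τ L' (fun H => ∀ i, R i H) := by
  induction m with
  | zero =>
    refine ⟨fun k => k, fun X _ d τ R _ _ g => ⟨fun k => {k}, fun k =>
      ⟨Finset.singleton_nonempty k, by simp⟩, fun i => i.elim0⟩⟩
  | succ m ih =>
    obtain ⟨L', hL'⟩ := ih fun i => L i.castSucc
    refine ⟨fun k => L' (L (Fin.last m) k), fun X _ d τ R hR h => ?_⟩
    have h1 := hL' X d τ (fun i => R i.castSucc) (fun i => hR i.castSucc) fun i => h i.castSucc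
    refine RamG.mono ?_ (RamG.and (fun H H' hH h2 i => hR _ H H' hH (h2 i)) h1 (h (Fin.last m)))
    intro H hH i
    refine Fin.lastCases ?_ (fun j => ?_) i
    · exact hH.2
    · exact hH.1 j

theorem index_bound {V : Type} (Z : Set V) (hZ : Z.Finite) (q : ℕ) (hq : 0 < q) :
    ∃ N : ℕ, ∀ (X : Type) [CommGroup X] (ψ : X → V → ℂ), (∀ v ∈ Z, ∀ x, ψ x v ^ q = 1) →
      (∀ v ∈ Z, ∀ x y, ψ (x * y) v = ψ x v * ψ y v) → ∀ Y : Subgroup X,
      (∀ x, x ∈ Y ↔ ∀ v ∈ Z, ψ x v = 1) → Y.index ≠ 0 ∧ Y.index ≤ N := by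
  have hZf : Finite Z := hZ
  have hW : Finite {z : ℂ // z ^ q = 1} := by
    have h1 : {z : ℂ | z ^ q = 1}.Finite := by
      refine (Polynomial.nthRoots q (1 : ℂ)).toFinset.finite_toSet.subset ?_
      intro z hz
      have hz' : z ^ q = 1 := hz
      rw [Finset.mem_coe, Multiset.mem_toFinset, Polynomial.mem_nthRoots hq]
      exact hz'
    exact h1
  refine ⟨Nat.card (Z → {z : ℂ // z ^ q = 1}), fun X _ ψ h1 h2 Y hY => ?_⟩
  have hne : ∀ v ∈ Z, ∀ x, ψ x v ≠ 0 := fun v hv x h0 => by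
    have := h1 v hv x
    rw [h0, zero_pow hq.ne'] at this
    exact zero_ne_one this
  have h3 : ∀ x y : X, x⁻¹ * y ∈ Y → ∀ v ∈ Z, ψ x v = ψ y v := by
    intro x y hxy v hv
    have h4 := (hY _).1 hxy v hv
    have h5 := h2 v hv x (x⁻¹ * y)
    rw [h4, mul_one, mul_inv_cancel_left] at h5
    exact h5.symm
  let f : X ⧸ Y → (Z → {z : ℂ // z ^ q = 1}) := fun c =>
    Quotient.liftOn' c (fun x v => ⟨ψ x v, h1 v v.2 x⟩) (by
      intro x y hxy
      funext v
      exact Subtype.ext (h3 x y (QuotientGroup.leftRel_apply.1 hxy) v v.2))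
  have hf : Function.Injective f := by
    intro c c' hcc
    induction c using QuotientGroup.induction_on with
    | H x =>
    induction c' using QuotientGroup.induction_on with
    | H y =>
    rw [QuotientGroup.eq, hY]
    intro v hv
    have h4 := congrArg Subtype.val (congrFun hcc ⟨v, hv⟩)
    have h5 : ψ x v = ψ y v := h4
    have h6 := h2 v hv x (x⁻¹ * y)
    rw [mul_inv_cancel_left, ← h5] at h6
    exact mul_left_cancel₀ (hne v hv x) (by rw [mul_one]; exact h6.symm)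
  have hfin : Finite (X ⧸ Y) := Finite.of_injective f hf
  exact ⟨Subgroup.index_ne_zero_of_finite, Nat.card_le_card_of_injective f hf⟩

end Pool.Agent.H92.HB
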