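import Pool.Agent.H92.HB.All

/-!
# Assembly: one curve, any prime number
-/

set_option autoImplicit false
set_option linter.all false

open NumberField IsDedekindDomain WeierstrassCurve
open scoped Classical

namespace Pool.Agent.H92.HB

open Pool.Agent.TH115.GD (act ak rs Pt)
open Pool.Agent.H92 (clo)
open Pool.Agent.H92P (cu pts)

section one

variable {k 𝓛 X : Type} [Field k] [NumberField k] [Field 𝓛] [Algebra k 𝓛] [CommGroup X]
  {κ : X →* ((𝓛 ≃ₐ[k] 𝓛) →* ℂˣ)} {a b : 𝓞 k} {p e v : ℕ}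

theorem key2 (hSTG : S_STG) (hSYS : S_SYS) (hGLUE : S_GLUE) (hSHA : S_SHA)
    (hTORS : S_TORS) (hDIC : S_DIC) (hp : p.Prime) (ht : Twr κ a b p e)
    (hΔ : 4 * a ^ 3 + 27 * b ^ 2 ≠ 0) (hfin : Finite (cu k a b).toAffine.Point)
    (hcard : ¬ p ∣ Nat.card (cu k a b).toAffine.Point)
    (hB : ∀ (M : ℕ) (S : LocSys (AlgebraicClosure k ≃ₐ[k] AlgebraicClosure k)
      (Tor (cu k a b) (p ^ M))), IsSys (cu k a b) (p ^ M) S →
      Finite (S.A ⊤) ∧ Nat.card (S.A ⊤) ∣ p ^ v)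
    (M : ℕ) (𝓕 : Subgroup X) (h𝓕 : Finite 𝓕) :
    ∃ θ : (𝓕 →* ℂˣ) → ℤ, ∀ H : Subgroup X, H ≤ 𝓕 →
      (∀ x : 𝓕, (x : X) ∈ H →
        ∃ y : integralClosure ℤ ℂ, ev θ x = ev θ 1 + (p : ℂ) ^ (v + 1) * y) →
      QQ κ a b p v M H := by
  have hgal := ht.gal
  obtain ⟨hG, hfd, hj⟩ := hDIC k 𝓛 X κ ht.deg 𝓕 h𝓕
  have j₀ : 𝓛 →ₐ[k] AlgebraicClosure k := IsAlgClosed.lift
  obtain ⟨π, hπs, hπ⟩ := hj j₀
  have hnf : NumberField (fld κ 𝓕) := NumberField.of_module_finite k (fld κ 𝓕)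
  obtain ⟨n, hn⟩ := card_pow hp ht.exp 𝓕 h𝓕
  have hdeg : Module.finrank k (fld κ 𝓕) = p ^ n := by rw [ht.deg 𝓕 h𝓕, hn]
  obtain ⟨S, hSys⟩ := hSYS k (cu k a b) (p ^ M)
  let j : fld κ 𝓕 →ₐ[k] AlgebraicClosure k := j₀.comp (fld κ 𝓕).val
  have hker : π.ker = fixf j := by
    ext σ
    rw [MonoidHom.mem_ker]
    constructor
    · intro h x
      exact (hπ 𝓕 le_rfl σ).2 (fun x _ => by rw [h]; rfl) x
    · intro h
      ext x
      have := (hπ 𝓕 le_rfl σ).1 (fun x => h x) x x.2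
      rw [this]
      rfl
  obtain ⟨-, hT0⟩ := hTORS k (fld κ 𝓕) p n hp hdeg a b hΔ hfin hcard
  obtain ⟨hB1, hB2⟩ := hB M S hSys
  have hglue : ∀ U : Subgroup (AlgebraicClosure k ≃ₐ[k] AlgebraicClosure k), U = fixf j →
      ∀ f : (AlgebraicClosure k ≃ₐ[k] AlgebraicClosure k) → Tor (cu k a b) (p ^ M),
      (∀ σ τ, f (σ * τ) = f σ + σ • f τ) → (fun σ : U => f σ) ∈ S.Z U →
      (fun σ : (⊤ : Subgroup (AlgebraicClosure k ≃ₐ[k] AlgebraicClosure k)) => f σ) ∈ S.Z ⊤ := by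
    rintro U rfl f hf hfU
    exact (hSys _ _).2 (hGLUE k (fld κ 𝓕) p n hp hdeg a b (ht.split 𝓕 h𝓕) (ht.ram 𝓕 h𝓕) M j f hf
      ((hSys _ _).1 hfU))
  obtain ⟨θ, hθ⟩ := hSTG p hp M v (AlgebraicClosure k ≃ₐ[k] AlgebraicClosure k)
    (Tor (cu k a b) (p ^ M)) S (fun t => Subtype.ext t.2) 𝓕 ⟨e, fun x => Subtype.ext (ht.exp x)⟩ π
    hπs (fun t h => hT0 M j t fun σ hσ => h σ (by rw [hker]; exact hσ)) (hglue _ hker) hB1 hB2
  refine ⟨θ, fun H hH hc hnH => ?_⟩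
  have hHf : Finite H := Finite.of_injective _ (Subgroup.inclusion_injective hH)
  let jH : fld κ H →ₐ[k] AlgebraicClosure k := j₀.comp (fld κ H).val
  obtain ⟨h1, h2⟩ := hθ (H.subgroupOf 𝓕) (fun x hx => hc x (Subgroup.mem_subgroupOf.1 hx))
    (fixf jH) (fun σ => ⟨fun h x hx => (hπ H hH σ).1 (fun y => h y) x (Subgroup.mem_subgroupOf.1 hx),
      fun h y => (hπ H hH σ).2 (fun x hx => h x (Subgroup.mem_subgroupOf.2 hx)) y⟩)
  have hcH : Nat.card (H.subgroupOf 𝓕) = Nat.card H :=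
    Nat.card_congr (Subgroup.subgroupOfEquivOfLe hH).toEquiv
  rw [hcH] at h2
  exact sha_F hSHA hΔ (pow_pos hp.pos M) (pow_pos hp.pos _) jH S hSys h1 h2

end one

/-- the theorem of Ramsey type for one curve -/
theorem ram_one2 (hSTG : S_STG) (hSYS : S_SYS) (hGLUE : S_GLUE) (hSHA : S_SHA)
    (hTORS : S_TORS) (hDIC : S_DIC) (hEND : S_END) (hALGR : S_ALGR) {k : Type} [Field k]
    [NumberField k] {p : ℕ} (hp : p.Prime) {a b : 𝓞 k}
    (hΔ : 4 * a ^ 3 + 27 * b ^ 2 ≠ 0) (hfin : Finite (cu k a b).toAffine.Point)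
    (hcard : ¬ p ∣ Nat.card (cu k a b).toAffine.Point) {v : ℕ}
    (hB : ∀ (M : ℕ) (S : LocSys (AlgebraicClosure k ≃ₐ[k] AlgebraicClosure k)
      (Tor (cu k a b) (p ^ M))), IsSys (cu k a b) (p ^ M) S →
      Finite (S.A ⊤) ∧ Nat.card (S.A ⊤) ∣ p ^ v) (e d : ℕ) :
    ∃ L : ℕ → ℕ, ∀ (X : Type) [CommGroup X] (hX : ∀ x : X, x ^ p ^ e = 1) (Y : Subgroup X)
      (𝓛 : Type) [Field 𝓛] [Algebra k 𝓛] (κ : Y →* ((𝓛 ≃ₐ[k] 𝓛) →* ℂˣ)), Twr κ a b p e →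
      ∀ (τ : Fin d → X →* X), (∃ i0, ∀ x, τ i0 x = x) → (∀ i j, ∃ k, ∀ x, τ i (τ j x) = τ k x) →
      ∀ g : ℕ → X, ∃ B : ℕ → Finset ℕ,
      (∀ k, (B k).Nonempty ∧ B k ⊆ Finset.Ico (L k) (L (k + 1))) ∧
      ∀ H : Subgroup Y, Finite H → H.map Y.subtype ≤ clo τ g B → ∀ M, QQ κ a b p v M H := by
  obtain ⟨L, hL⟩ := hALGR p hp e v d
  refine ⟨L, fun X _ hX Y 𝓛 _ _ κ ht τ hτ1 hτ2 g => ?_⟩
  obtain ⟨B, hB1, hB2⟩ := hL X hX (fun M H => ∀ H' : Subgroup Y, Finite H' →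
      H'.map Y.subtype ≤ H → QQ κ a b p v M H')
    (fun M H H' hH h K hK hK' => h K hK (hK'.trans hH))
    (fun M M' H hM h K hK hK' hnf => mono_F hEND hp (pow_pos hp.pos _) hM (h K hK hK'))
    (fun M 𝓕 h𝓕 => by
      have hYf : Finite (𝓕.subgroupOf Y) := by
        refine Finite.of_injective (fun x : 𝓕.subgroupOf Y => (⟨((x : Y) : X), x.2⟩ : 𝓕)) ?_
        intro x y hxy
        have h1 := congrArg Subtype.val hxy
        exact Subtype.ext (Subtype.ext h1)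
      obtain ⟨θ, hθ⟩ := key2 hSTG hSYS hGLUE hSHA hTORS hDIC hp ht hΔ hfin hcard hB M
        (𝓕.subgroupOf Y) hYf
      -- the restriction of the characters of `𝓕` to `𝓕 ∩ Y`
      let ι : 𝓕.subgroupOf Y →* 𝓕 :=
        { toFun := fun x => ⟨((x : Y) : X), x.2⟩, map_one' := rfl, map_mul' := fun x y => rfl }
      have hι : Function.Injective ι := by
        intro x y hxy
        have h1 := congrArg Subtype.val hxy
        exact Subtype.ext (Subtype.ext h1)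
      have hsur : Function.Surjective fun φ : 𝓕 →* ℂˣ => φ.comp ι := by
        intro ψ
        have hne : NeZero (Monoid.exponent 𝓕) := ⟨Monoid.exponent_ne_zero_of_finite⟩
        obtain ⟨φ, hφ⟩ := MonoidHom.domRestrict_surjective (G := 𝓕) ℂ ι.range
          (ψ.comp (MonoidHom.ofInjective hι).symm.toMonoidHom)
        refine ⟨φ, ?_⟩
        ext x
        have h1 := DFunLike.congr_fun hφ ⟨ι x, ⟨x, rfl⟩⟩
        have h2 : (MonoidHom.ofInjective hι).symm ⟨ι x, ⟨x, rfl⟩⟩ = x := by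
          rw [MulEquiv.symm_apply_eq]
          rfl
        have h3 : φ (ι x) = ψ ((MonoidHom.ofInjective hι).symm ⟨ι x, ⟨x, rfl⟩⟩) := h1
        rw [h2] at h3
        show ((φ (ι x) : ℂˣ) : ℂ) = ((ψ x : ℂˣ) : ℂ)
        rw [h3]
      let s : (𝓕.subgroupOf Y →* ℂˣ) → (𝓕 →* ℂˣ) := Function.surjInv hsur
      have hs : ∀ ψ, (s ψ).comp ι = ψ := Function.surjInv_eq hsur
      let θ' : (𝓕 →* ℂˣ) → ℤ := fun φ => if s (φ.comp ι) = φ then θ (φ.comp ι) else 0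
      have hev : ∀ x : 𝓕.subgroupOf Y, ev θ' (ι x) = ev θ x := by
        intro x
        have : Fintype (𝓕 →* ℂˣ) := Fintype.ofFinite _
        have : Fintype (𝓕.subgroupOf Y →* ℂˣ) := Fintype.ofFinite _
        unfold ev
        rw [finsum_eq_sum_of_fintype, finsum_eq_sum_of_fintype]
        symm
        refine Finset.sum_of_injOn s ?_ (fun _ _ => Finset.mem_coe.2 (Finset.mem_univ _)) ?_ ?_
        · intro ψ _ ψ' _ h1
          rw [← hs ψ, ← hs ψ', h1]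
        · intro φ _ hφ
          have h1 : θ' φ = 0 := by
            refine if_neg fun h2 => hφ ⟨φ.comp ι, Finset.mem_coe.2 (Finset.mem_univ _), h2⟩
          rw [h1]
          simp
        · intro ψ _
          have h1 : θ' (s ψ) = θ ψ := by
            show (if s ((s ψ).comp ι) = s ψ then θ ((s ψ).comp ι) else 0) = θ ψ
            rw [hs, if_pos rfl]
          have h2 : (s ψ) (ι x) = ψ x := DFunLike.congr_fun (hs ψ) x
          rw [h1, h2]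
      refine ⟨θ', fun H hH H' hH' hle => hθ H' ?_ ?_⟩
      · intro y hy
        have h1 : ((y : Y) : X) ∈ H.map 𝓕.subtype := hle ⟨y, hy, rfl⟩
        obtain ⟨z, -, hz⟩ := h1
        show ((y : Y) : X) ∈ 𝓕
        rw [← hz]
        exact z.2
      · intro x hx
        have h1 : (((x : Y) : X)) ∈ H.map 𝓕.subtype := hle ⟨x, hx, rfl⟩
        obtain ⟨z, hz1, hz⟩ := h1
        have hz2 : z = ι x := Subtype.ext hz
        obtain ⟨y, hy⟩ := hH z hz1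
        refine ⟨y, ?_⟩
        rw [hz2, hev] at hy
        rw [hy, ← hev 1, map_one]) τ hτ1 hτ2 g
  refine ⟨B, hB1, fun H hH hle M => hB2 M (H.map Y.subtype) ?_ hle H hH le_rfl⟩
  have h1 : (H : Set Y).Finite := hH
  exact (h1.image Y.subtype)


/-- BASE2 -/
def S_BASE2 : Prop :=
  ∀ (k : Type) [Field k] [NumberField k], (∀ v : NumberField.InfinitePlace k, v.IsComplex) →
    ∀ (a b : 𝓞 k), 4 * a ^ 3 + 27 * b ^ 2 ≠ 0 →
    ∀ (p : ℕ), p.Prime → Finite (cu k a b).toAffine.Point →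
    ¬ p ∣ Nat.card (cu k a b).toAffine.Point →
    Finite {s : Pool.Agent.TH841.NF.D.Sha (cu k a b) // ∃ i : ℕ, (p ^ i : ℕ) • s = 0} →
    ∀ (M : ℕ) (S : LocSys (AlgebraicClosure k ≃ₐ[k] AlgebraicClosure k) (Tor (cu k a b) (p ^ M))),
    IsSys (cu k a b) (p ^ M) S → Finite (S.A ⊤) ∧ Nat.card (S.A ⊤) ∣
      Nat.card {s : Pool.Agent.TH841.NF.D.Sha (cu k a b) // ∃ i : ℕ, (p ^ i : ℕ) • s = 0}

/-- the theorem of Ramsey type for one curve over a totally complex field -/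
theorem ramC2 (hB2 : S_BASE2) {k : Type} [Field k]
    [NumberField k] (hk : ∀ v : NumberField.InfinitePlace k, v.IsComplex)
    {p : ℕ} (hp : p.Prime) {a b : 𝓞 k}
    (hΔ : 4 * a ^ 3 + 27 * b ^ 2 ≠ 0) (hfin : Finite (cu k a b).toAffine.Point)
    (hcard : ¬ p ∣ Nat.card (cu k a b).toAffine.Point) {v : ℕ}
    (hS : Finite {s : Pool.Agent.TH841.NF.D.Sha (cu k a b) // ∃ i : ℕ, (p ^ i : ℕ) • s = 0})
    (hv : Nat.card {s : Pool.Agent.TH841.NF.D.Sha (cu k a b) // ∃ i : ℕ, (p ^ i : ℕ) • s = 0} =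
      p ^ v) (e d : ℕ) :
    ∃ L : ℕ → ℕ, ∀ (X : Type) [CommGroup X] (hX : ∀ x : X, x ^ p ^ e = 1) (Y : Subgroup X)
      (𝓛 : Type) [Field 𝓛] [Algebra k 𝓛] (κ : Y →* ((𝓛 ≃ₐ[k] 𝓛) →* ℂˣ)), Twr κ a b p e →
      ∀ (τ : Fin d → X →* X), (∃ i0, ∀ x, τ i0 x = x) → (∀ i j, ∃ k, ∀ x, τ i (τ j x) = τ k x) →
      RamG τ L fun ℋ => ∀ H : Subgroup Y, Finite H → H.map Y.subtype ≤ ℋ →
        ∀ M, QQ κ a b p v M H :=
  ram_one2 stg Pool.Agent.H61.HB.t_SYS Pool.Agent.H91.HB.t_GLUE Pool.Agent.H52.HB.t_SHA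
    Pool.Agent.H12.HB.t_TORS Pool.Agent.H85.HB.t_DIC Pool.Agent.H45.HB.t_END
    (t_ALGR Pool.Agent.H23.HB.t_RAM Pool.Agent.H11.HB.kon) hp hΔ hfin hcard
    (fun M S hS' => by
      rw [← hv]
      exact hB2 k hk a b hΔ p hp hfin hcard hS M S hS') e d

end Pool.Agent.H92.HB
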