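import Pool.Agent.H92.HB.Asm3
import Pool.Agent.H36.HB.BASE2

/-!
# Imaginary quadratic fields
-/

set_option autoImplicit false
set_option linter.all false

open NumberField IsDedekindDomain WeierstrassCurve
open scoped Classical

namespace Pool.Agent.H92.HB

open Pool.Agent.H92 (clo)
open Pool.Agent.H92P (cu pts)

theorem cplx {K : Type} [Field K] [NumberField K] (σ : K →+* ℂ) (h2 : Module.finrank ℚ K = 2)
    (hi : ∃ x, (starRingEnd ℂ) (σ x) ≠ σ x) (v : InfinitePlace K) : v.IsComplex := by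
  have hσ : ¬ ComplexEmbedding.IsReal σ := by
    obtain ⟨x, hx⟩ := hi
    intro h
    exact hx (RingHom.congr_fun h x)
  have hne : σ ≠ ComplexEmbedding.conjugate σ := fun h => hσ h.symm
  have hc : Fintype.card (K →+* ℂ) = 2 := by rw [NumberField.Embeddings.card, h2]
  have hu : ({σ, ComplexEmbedding.conjugate σ} : Finset (K →+* ℂ)) = Finset.univ := by
    refine Finset.eq_univ_of_card _ ?_
    rw [hc, Finset.card_pair hne]
  rw [← InfinitePlace.not_isReal_iff_isComplex, InfinitePlace.isReal_iff]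
  have h1 : v.embedding ∈ ({σ, ComplexEmbedding.conjugate σ} : Finset (K →+* ℂ)) := by
    rw [hu]
    exact Finset.mem_univ _
  rw [Finset.mem_insert, Finset.mem_singleton] at h1
  rcases h1 with h1 | h1
  · rw [h1]
    exact hσ
  · rw [h1]
    intro h
    refine hσ ?_
    have h3 : ComplexEmbedding.conjugate (ComplexEmbedding.conjugate σ) =
        ComplexEmbedding.conjugate σ := h
    have h4 : ComplexEmbedding.conjugate (ComplexEmbedding.conjugate σ) = σ := star_star σ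
    exact h3.symm.trans h4

theorem base2 : S_BASE2 := fun k _ _ hk a b hD p hp hfin hc hSha M S hS =>
  Pool.Agent.H36.HB.t_BASE2 k a b hD hk p hp hfin hc hSha M S hS

/-- the theorem of Ramsey type for one curve over an imaginary quadratic field, any prime number -/
theorem ramQ {k : Type} [Field k] [NumberField k] (σ : k →+* ℂ) (h2 : Module.finrank ℚ k = 2)
    (hi : ∃ x, (starRingEnd ℂ) (σ x) ≠ σ x)
    {p : ℕ} (hp : p.Prime) {a b : 𝓞 k}
    (hΔ : 4 * a ^ 3 + 27 * b ^ 2 ≠ 0) (hfin : Finite (cu k a b).toAffine.Point)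
    (hcard : ¬ p ∣ Nat.card (cu k a b).toAffine.Point) {v : ℕ}
    (hS : Finite {s : Pool.Agent.TH841.NF.D.Sha (cu k a b) // ∃ i : ℕ, (p ^ i : ℕ) • s = 0})
    (hv : Nat.card {s : Pool.Agent.TH841.NF.D.Sha (cu k a b) // ∃ i : ℕ, (p ^ i : ℕ) • s = 0} =
      p ^ v) (e d : ℕ) :
    ∃ L : ℕ → ℕ, ∀ (X : Type) [CommGroup X] (hX : ∀ x : X, x ^ p ^ e = 1) (Y : Subgroup X)
      (𝓛 : Type) [Field 𝓛] [Algebra k 𝓛] (κ : Y →* ((𝓛 ≃ₐ[k] 𝓛) →* ℂˣ)), Twr κ a b p e →
      ∀ (τ : Fin d → X →* X), (∃ i0, ∀ x, τ i0 x = x) → (∀ i j, ∃ k, ∀ x, τ i (τ j x) = τ k x) →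
      RamG τ L fun ℋ => ∀ H : Subgroup Y, Finite H → H.map Y.subtype ≤ ℋ →
        ∀ M, QQ κ a b p v M H :=
  ramC2 base2 (cplx σ h2 hi) hp hΔ hfin hcard hS hv e d

end Pool.Agent.H92.HB
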