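import Pool.Agent.H92.HB.All

/-!
# The Selmer group of Bloch and Kato
-/

set_option autoImplicit false
set_option linter.all false

open NumberField IsDedekindDomain WeierstrassCurve
open scoped Classical

namespace Pool.Agent.H92.HB

theorem h1f_of {F : Type} [Field F] [NumberField F] {p : ℕ} (hp : p.Prime)
    {W : WeierstrassCurve F} (hfin : Finite W.toAffine.Point)
    (hS : Finite {s : Pool.Agent.TH841.NF.D.Sha W // ∃ i : ℕ, (p ^ i : ℕ) • s = 0}) :
    ∀ x : Pool.Agent.Y667.BKP.H1f p W, x = 0 := by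
  obtain ⟨m, hm⟩ : ∃ m : ℕ, ∀ (k : ℕ) (x : Pool.Agent.TH841.NF.D.Sha W), (p ^ k : ℕ) • x = 0 →
      (p ^ m : ℕ) • x = 0 := by
    have : Fintype {s : Pool.Agent.TH841.NF.D.Sha W // ∃ i : ℕ, (p ^ i : ℕ) • s = 0} :=
      Fintype.ofFinite _
    choose f hf using fun s : {s : Pool.Agent.TH841.NF.D.Sha W // ∃ i : ℕ, (p ^ i : ℕ) • s = 0} =>
      s.2
    refine ⟨Finset.univ.sup f, fun k x hx => ?_⟩
    have h1 := hf ⟨x, k, hx⟩
    have h2 : f ⟨x, k, hx⟩ ≤ Finset.univ.sup f := Finset.le_sup (Finset.mem_univ _)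
    rw [← Nat.sub_add_cancel h2, pow_add, mul_smul]
    rw [show (p ^ f ⟨x, k, hx⟩ : ℕ) • x = 0 from h1, smul_zero]
  exact Pool.Agent.Y667.BKP.h1f_zero hp hfin m hm

end Pool.Agent.H92.HB
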