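import Pool.Agent.H92.HB.Cplx

/-!
# The theorem of Ramsey type for groups of pairs of characters
-/

set_option autoImplicit false
set_option linter.all false

open NumberField IsDedekindDomain WeierstrassCurve
open scoped Classical

namespace Pool.Agent.H92.HB

open Pool.Agent.H92 (clo)
open Pool.Agent.H92P (cu pts)

section prs

variable {k 𝓛 X : Type} [Field k] [NumberField k] [Field 𝓛] [Algebra k 𝓛] [CommGroup X]
  {Y : Subgroup X} (κ : Y →* ((𝓛 ≃ₐ[k] 𝓛) →* ℂˣ))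

/-- the projection of `Y × 1` to `Y` -/
def prj (Y : Subgroup X) : (Y.prod (⊥ : Subgroup X)) →* Y where
  toFun z := ⟨z.1.1, (Subgroup.mem_prod.1 z.2).1⟩
  map_one' := rfl
  map_mul' _ _ := rfl

/-- the inclusion of `Y` in `Y × 1` -/
def icl (Y : Subgroup X) : Y →* (Y.prod (⊥ : Subgroup X)) where
  toFun z := ⟨(z.1, 1), Subgroup.mem_prod.2 ⟨z.2, Subgroup.mem_bot.2 rfl⟩⟩
  map_one' := rfl
  map_mul' _ _ := Subtype.ext (Prod.ext rfl (mul_one _).symm)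

theorem prj_inj (Y : Subgroup X) : Function.Injective (prj Y) := by
  rintro ⟨⟨x, y⟩, h1⟩ ⟨⟨x', y'⟩, h2⟩ h
  have h3 := Subgroup.mem_bot.1 (Subgroup.mem_prod.1 h1).2
  have h4 := Subgroup.mem_bot.1 (Subgroup.mem_prod.1 h2).2
  have h5 : x = x' := congrArg Subtype.val h
  have h3' : y = 1 := h3
  have h4' : y' = 1 := h4
  subst h5 h3' h4'
  rfl

theorem prj_icl (Y : Subgroup X) (z : Y) : prj Y (icl Y z) = z := rfl

theorem fld_prj (H : Subgroup (Y.prod (⊥ : Subgroup X))) :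
    fld (κ.comp (prj Y)) H = fld κ (H.map (prj Y)) := by
  have h1 : annG (κ.comp (prj Y)) H = annG κ (H.map (prj Y)) := by
    ext σ
    constructor
    · rintro h _ ⟨g, hg, rfl⟩
      exact h g hg
    · intro h g hg
      exact h _ ⟨g, hg, rfl⟩
  unfold fld
  rw [h1]

theorem twr_prj {a b : 𝓞 k} {p e : ℕ} (ht : Twr κ a b p e) : Twr (κ.comp (prj Y)) a b p e := by
  refine ⟨ht.gal, fun x => prj_inj Y ?_, fun H hH => ?_, fun H hH => ?_, fun H hH => ?_⟩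
  · rw [map_pow, map_one]
    exact ht.exp _
  · have hf : Finite (H.map (prj Y)) :=
      Finite.of_equiv _ (Subgroup.equivMapOfInjective H (prj Y) (prj_inj Y)).toEquiv
    rw [fld_prj, ht.deg _ hf]
    exact Nat.card_congr (Subgroup.equivMapOfInjective H (prj Y) (prj_inj Y)).symm.toEquiv
  · have hf : Finite (H.map (prj Y)) :=
      Finite.of_equiv _ (Subgroup.equivMapOfInjective H (prj Y) (prj_inj Y)).toEquiv
    rw [fld_prj]
    exact ht.split _ hf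
  · have hf : Finite (H.map (prj Y)) :=
      Finite.of_equiv _ (Subgroup.equivMapOfInjective H (prj Y) (prj_inj Y)).toEquiv
    rw [fld_prj]
    intro hnf
    exact ht.ram _ hf

theorem qq_prj {a b : 𝓞 k} {p v M : ℕ} (H : Subgroup Y)
    (h : QQ (κ.comp (prj Y)) a b p v M (H.map (icl Y))) : QQ κ a b p v M H := by
  have e1 : (H.map (icl Y)).map (prj Y) = H := by
    rw [Subgroup.map_map]
    exact Subgroup.map_id H
  have e2 : Nat.card (H.map (icl Y)) = Nat.card H := by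
    refine Nat.card_congr (Subgroup.equivMapOfInjective H (icl Y) ?_).symm.toEquiv
    intro x y hxy
    rw [← prj_icl Y x, ← prj_icl Y y, hxy]
  unfold QQ at h ⊢
  rw [fld_prj, e1, e2] at h
  intro hnf
  exact h

end prs

/-- the theorem of Ramsey type for groups of pairs -/
theorem ramQ2 {k : Type} [Field k] [NumberField k] (σ : k →+* ℂ) (h2 : Module.finrank ℚ k = 2)
    (hi : ∃ x, (starRingEnd ℂ) (σ x) ≠ σ x)
    {p : ℕ} (hp : p.Prime) {a b : 𝓞 k}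
    (hΔ : 4 * a ^ 3 + 27 * b ^ 2 ≠ 0) (hfin : Finite (cu k a b).toAffine.Point)
    (hcard : ¬ p ∣ Nat.card (cu k a b).toAffine.Point) {v : ℕ}
    (hS : Finite {s : Pool.Agent.TH841.NF.D.Sha (cu k a b) // ∃ i : ℕ, (p ^ i : ℕ) • s = 0})
    (hv : Nat.card {s : Pool.Agent.TH841.NF.D.Sha (cu k a b) // ∃ i : ℕ, (p ^ i : ℕ) • s = 0} =
      p ^ v) (e d : ℕ) :
    ∃ L : ℕ → ℕ, (∀ (X : Type) [CommGroup X] (hX : ∀ x : X, x ^ p ^ e = 1) (Y : Subgroup X)
      (𝓛 : Type) [Field 𝓛] [Algebra k 𝓛] (κ : Y →* ((𝓛 ≃ₐ[k] 𝓛) →* ℂˣ)), Twr κ a b p e →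
      ∀ (τ : Fin d → X →* X), (∃ i0, ∀ x, τ i0 x = x) → (∀ i j, ∃ k, ∀ x, τ i (τ j x) = τ k x) →
      RamG τ L fun ℋ => ∀ H : Subgroup Y, Finite H → H.map Y.subtype ≤ ℋ →
        ∀ M, QQ κ a b p v M H) ∧
    ∀ (X : Type) [CommGroup X] (hX : ∀ x : X, x ^ p ^ e = 1) (Y : Subgroup X)
      (𝓛 : Type) [Field 𝓛] [Algebra k 𝓛] (κ : Y →* ((𝓛 ≃ₐ[k] 𝓛) →* ℂˣ)), Twr κ a b p e →
      ∀ (τ : Fin d → X × X →* X × X), (∃ i0, ∀ x, τ i0 x = x) →
      (∀ i j, ∃ k, ∀ x, τ i (τ j x) = τ k x) →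
      RamG τ L fun ℋ => ∀ H : Subgroup Y, Finite H →
        (H.map Y.subtype).map (MonoidHom.inl X X) ≤ ℋ → ∀ M, QQ κ a b p v M H := by
  obtain ⟨L, hL⟩ := ramQ σ h2 hi hp hΔ hfin hcard hS hv e d
  refine ⟨L, hL, fun X _ hX Y 𝓛 _ _ κ ht τ hτ1 hτ2 g => ?_⟩
  obtain ⟨B, hB1, hB2⟩ := hL (X × X) (fun x => Prod.ext (hX _) (hX _)) (Y.prod ⊥) 𝓛
    (κ.comp (prj Y)) (twr_prj κ ht) τ hτ1 hτ2 g
  refine ⟨B, hB1, fun H hH hle M => qq_prj κ H (hB2 _ ?_ ?_ M)⟩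
  · have : Function.Injective (icl Y) := by
      intro x y hxy
      rw [← prj_icl Y x, ← prj_icl Y y, hxy]
    exact Finite.of_equiv _ (Subgroup.equivMapOfInjective H (icl Y) this).toEquiv
  · refine le_trans (le_of_eq ?_) hle
    rw [Subgroup.map_map, Subgroup.map_map]
    rfl

end Pool.Agent.H92.HB
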